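import Pool.Agent.UMG.StmtsB

set_option autoImplicit false

namespace Pool.Agent.UMG.B.H15

open Finset Pool.Agent.UMG Pool.Agent.UMG.B

variable {H1 H2 : Type} {g1 : Equiv.Perm H1} {g2 : Equiv.Perm H2}

theorem iter_inl (n : ℕ) (h : H1) :
    (Equiv.sumCongr g1 g2)^[n] (Sum.inl h) = Sum.inl (g1^[n] h) := by
  induction n with
  | zero => rfl
  | succ n ih => rw [Function.iterate_succ_apply', ih, Function.iterate_succ_apply']; rfl

theorem iter_inr (n : ℕ) (h : H2) :
    (Equiv.sumCongr g1 g2)^[n] (Sum.inr h) = Sum.inr (g2^[n] h) := by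
  induction n with
  | zero => rfl
  | succ n ih => rw [Function.iterate_succ_apply', ih, Function.iterate_succ_apply']; rfl

theorem mp_inl (h : H1) : Function.minimalPeriod (Equiv.sumCongr g1 g2) (Sum.inl h : H1 ⊕ H2) =
    Function.minimalPeriod g1 h := by
  rw [Function.minimalPeriod_eq_minimalPeriod_iff]
  intro n
  unfold Function.IsPeriodicPt Function.IsFixedPt
  rw [iter_inl]
  exact Sum.inl_injective.eq_iff

theorem mp_inr (h : H2) : Function.minimalPeriod (Equiv.sumCongr g1 g2) (Sum.inr h : H1 ⊕ H2) =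
    Function.minimalPeriod g2 h := by
  rw [Function.minimalPeriod_eq_minimalPeriod_iff]
  intro n
  unfold Function.IsPeriodicPt Function.IsFixedPt
  rw [iter_inr]
  exact Sum.inr_injective.eq_iff

theorem mp_m {H : Type} {g : Equiv.Perm H} {m : H → H} (hm : IsMt g m) (x : H) :
    Function.minimalPeriod g (m x) = Function.minimalPeriod g x := by
  have hinj : Function.Injective m := Function.LeftInverse.injective hm.inv
  have hcom : ∀ (n : ℕ) (y : H), m (g^[n] y) = g^[n] (m y) := by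
    intro n
    induction n with
    | zero => intro y; rfl
    | succ n ih =>
      intro y
      rw [Function.iterate_succ_apply', Function.iterate_succ_apply', hm.com, ih]
  rw [Function.minimalPeriod_eq_minimalPeriod_iff]
  intro n
  unfold Function.IsPeriodicPt Function.IsFixedPt
  rw [← hcom]
  exact hinj.eq_iff

/-- the first part of a matching -/
def fst1 (m : H1 ⊕ H2 → H1 ⊕ H2) (h : H1) : H1 := Sum.elim id (fun _ => h) (m (Sum.inl h))

/-- the second part of a matching -/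
def snd1 (m : H1 ⊕ H2 → H1 ⊕ H2) (h : H2) : H2 := Sum.elim (fun _ => h) id (m (Sum.inr h))

theorem inl_fst (hp : ∀ h1 h2, Function.minimalPeriod g1 h1 ≠ Function.minimalPeriod g2 h2)
    {m : H1 ⊕ H2 → H1 ⊕ H2} (hm : IsMt (Equiv.sumCongr g1 g2) m) (h : H1) :
    m (Sum.inl h) = Sum.inl (fst1 m h) := by
  unfold fst1
  rcases hx : m (Sum.inl h) with x | y
  · rfl
  · exfalso
    have h1 := mp_m hm (Sum.inl h)
    rw [hx, mp_inl, mp_inr] at h1
    exact hp h y h1.symm

theorem inr_snd (hp : ∀ h1 h2, Function.minimalPeriod g1 h1 ≠ Function.minimalPeriod g2 h2)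
    {m : H1 ⊕ H2 → H1 ⊕ H2} (hm : IsMt (Equiv.sumCongr g1 g2) m) (h : H2) :
    m (Sum.inr h) = Sum.inr (snd1 m h) := by
  unfold snd1
  rcases hx : m (Sum.inr h) with x | y
  · exfalso
    have h1 := mp_m hm (Sum.inr h)
    rw [hx, mp_inl, mp_inr] at h1
    exact hp x h h1
  · rfl

theorem isMt_fst (hp : ∀ h1 h2, Function.minimalPeriod g1 h1 ≠ Function.minimalPeriod g2 h2)
    {m : H1 ⊕ H2 → H1 ⊕ H2} (hm : IsMt (Equiv.sumCongr g1 g2) m) : IsMt g1 (fst1 m) := by
  have hl := inl_fst hp hm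
  refine ⟨fun h => ?_, fun h hh => ?_, fun h => ?_⟩
  · apply Sum.inl_injective (β := H2)
    rw [← hl, ← hl, hm.inv]
  · apply hm.nfx (Sum.inl h)
    rw [hl, hh]
  · apply Sum.inl_injective (β := H2)
    rw [← hl]
    have h2 := hm.com (Sum.inl h)
    rw [hl h] at h2
    exact h2

theorem isMt_snd (hp : ∀ h1 h2, Function.minimalPeriod g1 h1 ≠ Function.minimalPeriod g2 h2)
    {m : H1 ⊕ H2 → H1 ⊕ H2} (hm : IsMt (Equiv.sumCongr g1 g2) m) : IsMt g2 (snd1 m) := by
  have hl := inr_snd hp hm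
  refine ⟨fun h => ?_, fun h hh => ?_, fun h => ?_⟩
  · apply Sum.inr_injective (α := H1)
    rw [← hl, ← hl, hm.inv]
  · apply hm.nfx (Sum.inr h)
    rw [hl, hh]
  · apply Sum.inr_injective (α := H1)
    rw [← hl]
    have h2 := hm.com (Sum.inr h)
    rw [hl h] at h2
    exact h2

theorem isMt_map {m1 : H1 → H1} {m2 : H2 → H2} (h1 : IsMt g1 m1) (h2 : IsMt g2 m2) :
    IsMt (Equiv.sumCongr g1 g2) (Sum.map m1 m2) := by
  refine ⟨?_, ?_, ?_⟩
  · rintro (h | h)
    · show Sum.inl (m1 (m1 h)) = Sum.inl h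
      rw [h1.inv]
    · show Sum.inr (m2 (m2 h)) = Sum.inr h
      rw [h2.inv]
  · rintro (h | h) hh
    · exact h1.nfx h (Sum.inl_injective hh)
    · exact h2.nfx h (Sum.inr_injective hh)
  · rintro (h | h)
    · show Sum.inl (m1 (g1 h)) = Sum.inl (g1 (m1 h))
      rw [h1.com]
    · show Sum.inr (m2 (g2 h)) = Sum.inr (g2 (m2 h))
      rw [h2.com]

theorem map_eq (hp : ∀ h1 h2, Function.minimalPeriod g1 h1 ≠ Function.minimalPeriod g2 h2)
    {m : H1 ⊕ H2 → H1 ⊕ H2} (hm : IsMt (Equiv.sumCongr g1 g2) m) :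
    Sum.map (fst1 m) (snd1 m) = m := by
  funext x
  rcases x with h | h
  · exact (inl_fst hp hm h).symm
  · exact (inr_snd hp hm h).symm

theorem spm : SpmStmt := by
  intro H1 H2 _ _ g1 g2 ν1 ν2 hp
  refine ⟨⟨fun m => (⟨fst1 m.1, isMt_fst hp m.2⟩, ⟨snd1 m.1, isMt_snd hp m.2⟩),
    fun z => ⟨Sum.map z.1.1 z.2.1, isMt_map z.1.2 z.2.2⟩, ?_, ?_⟩, ?_⟩
  · intro m
    exact Subtype.ext (map_eq hp m.2)
  · rintro ⟨m1, m2⟩
    rfl
  · intro m
    show QQ ν1 (fst1 m.1) + QQ ν2 (snd1 m.1) = QQ (Sum.elim ν1 ν2) m.1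
    funext v w
    rw [Pi.add_apply, Pi.add_apply, ← QQ_sum, map_eq hp m.2]

end Pool.Agent.UMG.B.H15
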