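import Pool.Agent.UMG.StmtsD

set_option autoImplicit false

namespace Pool.Agent.UMG.H15

open Pool.Agent.UMG Finset

section
variable {R : Type} [CommSemiring R]

theorem csum_mul (a : R) : ∀ (n k : ℕ), k ≤ n → ∀ Ψ : List ℕ → R,
    csum k (fun p => a * Ψ p) = a * csum k Ψ := by
  intro n
  induction n with
  | zero =>
    intro k hk Ψ
    obtain rfl : k = 0 := by omega
    rw [csum, csum]
  | succ n ih =>
    intro k hk Ψ
    cases k with
    | zero => rw [csum, csum]
    | succ k =>
      rw [csum, csum, Finset.mul_sum]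
      refine Finset.sum_congr rfl fun i _ => ?_
      rw [ih (k - i) (by omega)]
      ring

theorem csum_sum {ι : Type} (S : Finset ι) : ∀ (n k : ℕ), k ≤ n → ∀ Ψ : ι → List ℕ → R,
    csum k (fun p => ∑ i ∈ S, Ψ i p) = ∑ i ∈ S, csum k (Ψ i) := by
  intro n
  induction n with
  | zero =>
    intro k hk Ψ
    obtain rfl : k = 0 := by omega
    rw [csum]
    refine Finset.sum_congr rfl fun i _ => ?_
    rw [csum]
  | succ n ih =>
    intro k hk Ψ
    cases k with
    | zero =>
      rw [csum]
      refine Finset.sum_congr rfl fun i _ => ?_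
      rw [csum]
    | succ k =>
      rw [csum]
      have e : ∀ i ∈ S, csum (k + 1) (Ψ i) = ∑ j ∈ range (k + 1),
          (k.descFactorial j : R) * csum (k - j) (fun p => Ψ i ((j + 1) :: p)) := by
        intro i _
        rw [csum]
      rw [Finset.sum_congr rfl e, Finset.sum_comm]
      refine Finset.sum_congr rfl fun j _ => ?_
      rw [ih (k - j) (by omega), Finset.mul_sum]

theorem gsum_mul (a : R) : ∀ (n : ℕ) (d : List ℕ), d.length ≤ n → ∀ Ψ : Code → R,
    gsum d (fun c => a * Ψ c) = a * gsum d Ψ := by
  intro n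
  induction n with
  | zero =>
    intro d hd Ψ
    obtain rfl : d = [] := List.length_eq_zero_iff.1 (by omega)
    rw [gsum, gsum]
  | succ n ih =>
    intro d hd Ψ
    cases d with
    | nil => rw [gsum, gsum]
    | cons k t =>
      rw [gsum, gsum, Finset.mul_sum]
      refine Finset.sum_congr rfl fun i _ => ?_
      have hl : (t.drop i).length ≤ n := by
        rw [List.length_drop]
        rw [List.length_cons] at hd
        omega
      have e : (fun p => gsum (t.drop i) (fun c => a * Ψ ((i + 1, p) :: c)))
          = fun p => a * gsum (t.drop i) (fun c => Ψ ((i + 1, p) :: c)) := by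
        funext p
        exact ih (t.drop i) hl _
      rw [e, csum_mul a k k le_rfl]
      ring

theorem gsum_sum {ι : Type} (S : Finset ι) : ∀ (n : ℕ) (d : List ℕ), d.length ≤ n →
    ∀ Ψ : ι → Code → R, gsum d (fun c => ∑ i ∈ S, Ψ i c) = ∑ i ∈ S, gsum d (Ψ i) := by
  intro n
  induction n with
  | zero =>
    intro d hd Ψ
    obtain rfl : d = [] := List.length_eq_zero_iff.1 (by omega)
    rw [gsum]
    refine Finset.sum_congr rfl fun i _ => ?_
    rw [gsum]
  | succ n ih =>
    intro d hd Ψ
    cases d with
    | nil =>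
      rw [gsum]
      refine Finset.sum_congr rfl fun i _ => ?_
      rw [gsum]
    | cons k t =>
      rw [gsum]
      have e : ∀ i ∈ S, gsum (k :: t) (Ψ i) = ∑ j ∈ range (t.count k + 1),
          ((t.count k).descFactorial j : R) * (k.factorial : R) ^ j *
            csum k (fun p => gsum (t.drop j) (fun c => Ψ i ((j + 1, p) :: c))) := by
        intro i _
        rw [gsum]
      rw [Finset.sum_congr rfl e, Finset.sum_comm]
      refine Finset.sum_congr rfl fun j _ => ?_
      have hl : (t.drop j).length ≤ n := by
        rw [List.length_drop]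
        rw [List.length_cons] at hd
        omega
      have e2 : (fun p => gsum (t.drop j) (fun c => ∑ i ∈ S, Ψ i ((j + 1, p) :: c)))
          = fun p => ∑ i ∈ S, gsum (t.drop j) (fun c => Ψ i ((j + 1, p) :: c)) := by
        funext p
        exact ih (t.drop j) hl _
      rw [e2, csum_sum S k k le_rfl, Finset.mul_sum]

end

theorem csum_cast : ∀ (n k : ℕ), k ≤ n → ∀ Ψ : List ℕ → ℕ,
    ((csum k Ψ : ℕ) : ℝ) = csum k (fun p => (Ψ p : ℝ)) := by
  intro n
  induction n with
  | zero =>
    intro k hk Ψ
    obtain rfl : k = 0 := by omega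
    rw [csum, csum]
  | succ n ih =>
    intro k hk Ψ
    cases k with
    | zero => rw [csum, csum]
    | succ k =>
      rw [csum, csum, Nat.cast_sum]
      refine Finset.sum_congr rfl fun i _ => ?_
      rw [Nat.cast_mul, ih (k - i) (by omega)]
      simp

theorem gsum_cast : ∀ (n : ℕ) (d : List ℕ), d.length ≤ n → ∀ Ψ : Code → ℕ,
    ((gsum d Ψ : ℕ) : ℝ) = gsum d (fun c => (Ψ c : ℝ)) := by
  intro n
  induction n with
  | zero =>
    intro d hd Ψ
    obtain rfl : d = [] := List.length_eq_zero_iff.1 (by omega)
    rw [gsum, gsum]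
  | succ n ih =>
    intro d hd Ψ
    cases d with
    | nil => rw [gsum, gsum]
    | cons k t =>
      rw [gsum, gsum, Nat.cast_sum]
      refine Finset.sum_congr rfl fun i _ => ?_
      have hl : (t.drop i).length ≤ n := by
        rw [List.length_drop]
        rw [List.length_cons] at hd
        omega
      have e : (fun p => gsum (t.drop i) (fun c => ((Ψ ((i + 1, p) :: c) : ℕ) : ℝ)))
          = fun p => ((gsum (t.drop i) (fun c => Ψ ((i + 1, p) :: c)) : ℕ) : ℝ) := by
        funext p
        exact (ih (t.drop i) hl _).symm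
      rw [e, ← csum_cast k k le_rfl]
      push_cast
      ring

theorem gln : GlnStmt := fun d =>
  ⟨fun a Ψ => gsum_mul a d.length d le_rfl Ψ, fun _ S Ψ => gsum_sum S d.length d le_rfl Ψ,
    fun Ψ => gsum_cast d.length d le_rfl Ψ⟩

end Pool.Agent.UMG.H15
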