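import Pool.Agent.UMG.StmtsD

set_option autoImplicit false

namespace Pool.Agent.UMG.H15

open Pool.Agent.UMG Finset

theorem Xb_eq (M j b : ℕ) :
    (Xb M (j + 1) b : ℝ) = (2 * ((M : ℝ) + 1)) ^ (j + 1) * sq M (j + 1) (b + 1) := by
  have h : (2 * ((M : ℝ) + 1)) ≠ 0 := by positivity
  unfold Xb sq
  rw [Nat.add_sub_cancel]
  push_cast
  rw [pow_succ]
  field_simp

theorem ygr (h1 : CoeStmt) : YgrStmt := by
  intro M K c j
  unfold Yt scl G
  by_cases hj : j < K
  · have hj' : j + 1 ≤ K := hj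
    simp only [if_pos hj, if_pos hj']
    unfold Gr
    push_cast
    rw [Finset.mul_sum]
    refine Finset.sum_congr rfl fun b hb => ?_
    rw [h1 M (j + 1) b (Nat.lt_succ_iff.1 (Finset.mem_range.1 hb)), Xb_eq, mul_pow, ← pow_mul]
    ring
  · have hj' : ¬ j + 1 ≤ K := hj
    simp only [if_neg hj, if_neg hj']
    push_cast
    rw [mul_pow, ← pow_mul]
    ring

end Pool.Agent.UMG.H15
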